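import Mathlib

/-!
[H21 UI Pf]  Multiplicativity of anisotropic Pfister forms; fields whose anisotropic forms have at most `u` variables.
-/

set_option autoImplicit false

namespace Pool.Agent.H21.UI

open QuadraticMap

variable {F : Type*} [Field F]

/-- every quadratic form on a space of dimension more than `u` is isotropic -/
theorem iso_of_bound {u : ℕ} (hu : ∀ m : ℕ, u < m → ∀ Q : QuadraticForm F (Fin m → F), ¬ Q.Anisotropic)
    {V : Type*} [AddCommGroup V] [Module F V] [FiniteDimensional F V] (h : u < Module.finrank F V)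
    (Q : QuadraticForm F V) : ∃ x : V, x ≠ 0 ∧ Q x = 0 := by
  have e : V ≃ₗ[F] (Fin (Module.finrank F V) → F) := LinearEquiv.ofFinrankEq _ _ (by simp)
  have h1 := hu _ h (Q.comp e.symm.toLinearMap)
  rw [not_anisotropic_iff_exists] at h1
  obtain ⟨x, hx, hq⟩ := h1
  refine ⟨e.symm x, ?_, hq⟩
  intro h0
  exact hx (by simpa using h0)

/-- A universal subform of an anisotropic form is everything. -/
theorem univ_top (h2 : (2 : F) ≠ 0) {V X : Type*} [AddCommGroup V] [Module F V] [FiniteDimensional F V]
    [AddCommGroup X] [Module F X] [FiniteDimensional F X] (q : QuadraticForm F V) (hq : q.Anisotropic)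
    (f : X →ₗ[F] V) (hf : Function.Injective f) (hU : ∀ d : F, d ≠ 0 → ∃ x, q (f x) = d) :
    Module.finrank F X = Module.finrank F V := by
  refine le_antisymm (LinearMap.finrank_le_finrank_of_injective hf) ?_
  by_contra hlt
  rw [not_le] at hlt
  -- the polar pairing of V against X
  let g : V →ₗ[F] Module.Dual F X := (LinearMap.lcomp F F f).comp (polarBilin q)
  have h1 : Module.finrank F (Module.Dual F X) < Module.finrank F V := by
    rw [Subspace.dual_finrank_eq]; exact hlt
  have h3 : g.ker ≠ ⊥ := LinearMap.ker_ne_bot_of_finrank_lt h1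
  obtain ⟨v, hv, hv0⟩ := (Submodule.ne_bot_iff _).1 h3
  have h4 : ∀ x, polar q v (f x) = 0 := by
    intro x
    have := LinearMap.congr_fun (LinearMap.mem_ker.1 hv) x
    exact this
  have h5 : q v ≠ 0 := fun h => hv0 (hq v h)
  obtain ⟨x, hx⟩ := hU (-q v) (neg_ne_zero.2 h5)
  have h6 : q (v + f x) = 0 := by
    rw [QuadraticMap.map_add q v (f x), h4 x, hx]
    ring
  have h7 := hq _ h6
  have h8 : f x = -v := by
    rw [eq_neg_iff_add_eq_zero, add_comm]; exact h7
  have h9 := h4 x
  rw [h8, polar_neg_right, polar_self] at h9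
  have h10 : (2 : F) * q v = 0 := by
    have := h9
    rw [neg_eq_zero, nsmul_eq_mul] at this
    exact_mod_cast this
  exact (mul_ne_zero h2 h5) h10

/-- the values of the form are multiplicative, by linear similarities -/
def Mult {V : Type*} [AddCommGroup V] [Module F V] (s : QuadraticForm F V) : Prop :=
  ∀ z : V, z ≠ 0 → ∃ T : V →ₗ[F] V, ∀ y, s (T y) = s z * s y

theorem polar_sim {V : Type*} [AddCommGroup V] [Module F V] (s : QuadraticForm F V) (c : F)
    (T : V →ₗ[F] V) (hT : ∀ y, s (T y) = c * s y) (y w : V) : polar s (T y) (T w) = c * polar s y w := by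
  unfold polar
  rw [← map_add, hT, hT, hT]
  ring

/-- doubling -/
theorem mult_step {V P : Type*} [AddCommGroup V] [Module F V] [FiniteDimensional F V] [AddCommGroup P] [Module F P]
    (s : QuadraticForm F V) (hs : s.Anisotropic) (hm : Mult s) (a : F)
    (p : QuadraticForm F P) (e : P ≃ₗ[F] V × V) (he : ∀ y, p y = s (e y).1 - a * s (e y).2) : Mult p := by
  -- it is enough to find the similarity on V × V
  suffices H : ∀ z : V × V, z ≠ 0 → ∃ T : (V × V) →ₗ[F] (V × V), ∀ y,
      s (T y).1 - a * s (T y).2 = (s z.1 - a * s z.2) * (s y.1 - a * s y.2) by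
    intro z hz
    obtain ⟨T, hT⟩ := H (e z) (fun h => hz (by simpa using h))
    refine ⟨e.symm.toLinearMap.comp (T.comp e.toLinearMap), fun y => ?_⟩
    have := hT (e y)
    rw [he, he z, he y]
    simpa using this
  rintro ⟨z1, z2⟩ hz
  by_cases h2 : z2 = 0
  · have h1 : z1 ≠ 0 := by
      intro h; exact hz (by rw [h, h2]; rfl)
    obtain ⟨T, hT⟩ := hm z1 h1
    refine ⟨T.prodMap T, fun y => ?_⟩
    simp only [LinearMap.prodMap_apply, hT, h2, QuadraticMap.map_zero]
    ring
  · obtain ⟨T2, hT2⟩ := hm z2 h2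
    by_cases h1 : z1 = 0
    · refine ⟨LinearMap.prod (a • (T2.comp (LinearMap.snd F V V))) (T2.comp (LinearMap.fst F V V)), fun y => ?_⟩
      show s (a • T2 y.2) - a * s (T2 y.1) = (s z1 - a * s z2) * (s y.1 - a * s y.2)
      rw [QuadraticMap.map_smul, hT2, hT2, h1, QuadraticMap.map_zero, smul_eq_mul]
      ring
    · obtain ⟨T1, hT1⟩ := hm z1 h1
      have hx : s z1 ≠ 0 := fun h => h1 (hs _ h)
      have hy : s z2 ≠ 0 := fun h => h2 (hs _ h)
      have hinj : Function.Injective T1 := by
        rw [← LinearMap.ker_eq_bot, LinearMap.ker_eq_bot']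
        intro v hv
        apply hs
        have := hT1 v
        rw [hv, QuadraticMap.map_zero] at this
        exact (mul_eq_zero.1 this.symm).resolve_left hx
      let E1 : V ≃ₗ[F] V := LinearEquiv.ofInjectiveEndo T1 hinj
      have hE1 : ∀ v, T1 (E1.symm v) = v := fun v => E1.apply_symm_apply v
      obtain ⟨R, hR⟩ : ∃ R : V →ₗ[F] V, R = E1.symm.toLinearMap.comp T2 := ⟨_, rfl⟩
      have hR1 : ∀ v, T1 (R v) = T2 v := fun v => by
        rw [hR]; exact hE1 (T2 v)
      obtain ⟨M, hM⟩ : ∃ M : V →ₗ[F] V, M = (s z1 / s z2) • T2.comp R := ⟨_, rfl⟩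
      have hMv : ∀ v, M v = (s z1 / s z2) • T2 (R v) := fun v => by rw [hM]; rfl
      have hRs : ∀ v, s z1 * s (R v) = s z2 * s v := fun v => by rw [← hT1, hR1, hT2]
      have hMs : ∀ v, s (M v) = s z1 * s v := fun v => by
        rw [hMv, QuadraticMap.map_smul, hT2, smul_eq_mul]
        have := hRs v
        field_simp
        rw [this]
      have hB : ∀ y1 y2, polar s (T1 y1) (T2 y2) = polar s (T2 y1) (M y2) := fun y1 y2 => by
        rw [hMv, polar_smul_right, polar_sim s _ T2 hT2, ← hR1 y2, polar_sim s _ T1 hT1, smul_eq_mul]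
        field_simp
      refine ⟨LinearMap.prod (T1.comp (LinearMap.fst F V V) + a • (T2.comp (LinearMap.snd F V V)))
        (T2.comp (LinearMap.fst F V V) + M.comp (LinearMap.snd F V V)), fun y => ?_⟩
      show s (T1 y.1 + a • T2 y.2) - a * s (T2 y.1 + M y.2) = (s z1 - a * s z2) * (s y.1 - a * s y.2)
      rw [QuadraticMap.map_add s, QuadraticMap.map_add s, QuadraticMap.map_smul, polar_smul_right, hT1, hT2, hT2, hMs, hB,
        smul_eq_mul, smul_eq_mul]
      ring

/-- The weights of an `n`-fold Pfister form `⟨1, -a₁⟩ ⊗ ⋯ ⊗ ⟨1, -aₙ⟩`. -/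
def wt {n : ℕ} (a : Fin n → F) (s : Fin n → Bool) : F := ∏ i, if s i then -a i else 1

/-- the `n`-fold Pfister form -/
noncomputable def pf {n : ℕ} (a : Fin n → F) : QuadraticForm F ((Fin n → Bool) → F) := weightedSumSquares F (wt a)

/-- the splitting of the space -/
def split (F : Type*) [Field F] (n : ℕ) : ((Fin (n + 1) → Bool) → F) ≃ₗ[F] ((Fin n → Bool) → F) × ((Fin n → Bool) → F) where
  toFun y := (fun s => y (Fin.cons false s), fun s => y (Fin.cons true s))
  invFun z := fun s => if s 0 then z.2 (Fin.tail s) else z.1 (Fin.tail s)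
  map_add' y z := rfl
  map_smul' c y := rfl
  left_inv y := by
    funext s
    by_cases h : s 0
    · simp only [h, if_true]
      congr 1
      rw [← h]; exact Fin.cons_self_tail s
    · have h' : s 0 = false := by simpa using h
      simp only [h', Bool.false_eq_true, if_false]
      congr 1
      rw [← h']; exact Fin.cons_self_tail s
  right_inv z := by
    simp

theorem pf_succ {n : ℕ} (a : Fin (n + 1) → F) (y : (Fin (n + 1) → Bool) → F) :
    pf a y = pf (fun i => a i.succ) (split F n y).1 - a 0 * pf (fun i => a i.succ) (split F n y).2 := by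
  have e : (Fin (n + 1) → Bool) ≃ Bool × (Fin n → Bool) := (Fin.consEquiv (fun _ => Bool)).symm
  unfold pf
  rw [weightedSumSquares_apply, weightedSumSquares_apply, weightedSumSquares_apply, Finset.mul_sum, ← Finset.sum_sub_distrib]
  rw [← (Fin.consEquiv (fun _ : Fin (n + 1) => Bool)).sum_comp, Fintype.sum_prod_type]
  simp only [Fintype.sum_bool]
  rw [← Finset.sum_add_distrib]
  refine Finset.sum_congr rfl fun s _ => ?_
  simp only [Fin.consEquiv_apply, wt, Fin.prod_univ_succ, Fin.cons_zero, Fin.cons_succ, split, LinearEquiv.coe_mk,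
    smul_eq_mul, if_true, Bool.false_eq_true, if_false, LinearMap.coe_mk, AddHom.coe_mk]
  show _ * (y (Fin.cons true s) * y (Fin.cons true s)) + _ * (y (Fin.cons false s) * y (Fin.cons false s)) = _
  ring

theorem mult_pf {n : ℕ} : ∀ a : Fin n → F, (pf a).Anisotropic → Mult (pf a) := by
  induction n with
  | zero =>
    intro a _ z _
    obtain ⟨o, ho⟩ : ∃ o : Fin 0 → Bool, ∀ s : Fin 0 → Bool, s = o := ⟨Fin.elim0, fun s => funext fun i => i.elim0⟩
    have h1 : ∀ y : (Fin 0 → Bool) → F, pf a y = y o * y o := by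
      intro y
      unfold pf
      rw [weightedSumSquares_apply, Fintype.sum_eq_single o (fun s hs => absurd (ho s) hs)]
      simp [wt]
    refine ⟨z o • LinearMap.id, fun y => ?_⟩
    rw [h1, h1, h1]
    simp only [LinearMap.smul_apply, LinearMap.id_apply, Pi.smul_apply, smul_eq_mul]
    ring
  | succ n ih =>
    intro a ha
    have h1 : (pf (fun i => a i.succ)).Anisotropic := by
      intro x hx
      have h2 := ha ((split F n).symm (x, 0)) (by
        rw [pf_succ, LinearEquiv.apply_symm_apply, hx]
        simp)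
      have h3 : (x, (0 : (Fin n → Bool) → F)) = 0 := by simpa using h2
      exact (Prod.mk.inj h3).1
    exact mult_step _ h1 (ih _ h1) (a 0) (pf a) (split F n) (pf_succ a)

end Pool.Agent.H21.UI
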