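import Mathlib
import Pool.Agent.H21.UI.Pf

/-!
[H21 UI Main]  Subforms divisible by Pfister forms, and quadratic extensions, for anisotropic forms of dimension `u(F)`.
-/

set_option autoImplicit false

namespace Pool.Agent.H21.UI

open QuadraticMap

variable {F : Type*} [Field F]

/-- `⟨⟨a₁, …, aₙ⟩⟩ ⊗ ⟨c₁, …, c_k⟩` -/
noncomputable def pfm {n k : ℕ} (a : Fin n → F) (c : Fin k → F) : QuadraticForm F ((Fin n → Bool) × Fin k → F) :=
  weightedSumSquares F (fun p => wt a p.1 * c p.2)

theorem pfm_eq {n k : ℕ} (a : Fin n → F) (c : Fin k → F) (x : (Fin n → Bool) × Fin k → F) :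
    pfm a c x = ∑ j, c j * pf a (fun s => x (s, j)) := by
  unfold pfm pf
  rw [weightedSumSquares_apply, Fintype.sum_prod_type_right]
  refine Finset.sum_congr rfl fun j _ => ?_
  rw [weightedSumSquares_apply, Finset.mul_sum]
  refine Finset.sum_congr rfl fun s _ => ?_
  simp only [smul_eq_mul]
  ring

/-- an anisotropic multiple of a Pfister form is universal if it is long enough -/
theorem pfm_univ {u : ℕ} (hu : ∀ m : ℕ, u < m → ∀ Q : QuadraticForm F (Fin m → F), ¬ Q.Anisotropic)
    {n k : ℕ} (hk : 0 < k) (a : Fin n → F) (c : Fin k → F) (hA : (pfm a c).Anisotropic) (h : u < 2 ^ n * (k + 1))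
    (d : F) (hd : d ≠ 0) : ∃ x, pfm a c x = d := by
  obtain ⟨k, rfl⟩ : ∃ k', k = k' + 1 := ⟨k - 1, by omega⟩
  -- the Pfister form is anisotropic
  have hc0 : c 0 ≠ 0 := by
    intro h0
    have := hA (fun p => if p.2 = 0 then 1 else 0) (by
      rw [pfm_eq, Finset.sum_eq_zero]
      intro j _
      by_cases hj : j = 0
      · rw [hj, h0, zero_mul]
      · have : (fun s : Fin n → Bool => (fun p : (Fin n → Bool) × Fin (k + 1) => if p.2 = 0 then (1 : F) else 0) (s, j)) = 0 := by
          funext s; simp [hj]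
        rw [this, QuadraticMap.map_zero, mul_zero])
    have h1 := congrFun this (fun _ => false, 0)
    simp at h1
  have hP : (pf a).Anisotropic := by
    intro z hz
    have := hA (fun p => if p.2 = 0 then z p.1 else 0) (by
      rw [pfm_eq, Finset.sum_eq_zero]
      intro j _
      by_cases hj : j = 0
      · have : (fun s : Fin n → Bool => (fun p : (Fin n → Bool) × Fin (k + 1) => if p.2 = 0 then z p.1 else 0) (s, j)) = z := by
          funext s; simp [hj]
        rw [this, hz, mul_zero]
      · have : (fun s : Fin n → Bool => (fun p : (Fin n → Bool) × Fin (k + 1) => if p.2 = 0 then z p.1 else 0) (s, j)) = 0 := by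
          funext s; simp [hj]
        rw [this, QuadraticMap.map_zero, mul_zero])
    funext s
    have h1 := congrFun this (s, 0)
    simpa using h1
  -- the longer form is isotropic
  obtain ⟨x, hx0, hx⟩ := iso_of_bound hu (V := (Fin n → Bool) × Fin (k + 2) → F) (by
    rw [Module.finrank_pi]
    simp only [Fintype.card_prod, Fintype.card_fun, Fintype.card_bool, Fintype.card_fin]
    exact h) (pfm a (Fin.snoc c (-d)))
  rw [pfm_eq, Fin.sum_univ_castSucc] at hx
  simp only [Fin.snoc_castSucc, Fin.snoc_last] at hx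
  obtain ⟨z, hz⟩ : ∃ z : (Fin n → Bool) → F, z = fun s => x (s, Fin.last (k + 1)) := ⟨_, rfl⟩
  rw [← hz] at hx
  have hz0 : z ≠ 0 := by
    intro h0
    rw [h0, QuadraticMap.map_zero, mul_zero, add_zero] at hx
    have h1 := hA (fun p => x (p.1, p.2.castSucc)) (by rw [pfm_eq]; exact hx)
    apply hx0
    funext p
    obtain ⟨s, j⟩ := p
    refine Fin.lastCases ?_ (fun j => ?_) j
    · have := congrFun h0 s
      rw [hz] at this
      exact this
    · exact congrFun h1 (s, j)
  have hzz : pf a z ≠ 0 := fun h0 => hz0 (hP _ h0)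
  obtain ⟨T, hT⟩ := mult_pf a hP z hz0
  refine ⟨fun p => (pf a z)⁻¹ * T (fun s => x (s, p.2.castSucc)) p.1, ?_⟩
  rw [pfm_eq]
  have e1 : ∀ j : Fin (k + 1), pf a (fun s => (pf a z)⁻¹ * T (fun s => x (s, j.castSucc)) s) =
      (pf a z)⁻¹ * pf a (fun s => x (s, j.castSucc)) := by
    intro j
    have : (fun s => (pf a z)⁻¹ * T (fun s => x (s, j.castSucc)) s) = (pf a z)⁻¹ • T (fun s => x (s, j.castSucc)) := by
      funext s; rfl
    rw [this, QuadraticMap.map_smul, hT, smul_eq_mul]
    field_simp
  have e2 : ∑ j : Fin (k + 1), c j * pf a (fun s => x (s, j.castSucc)) = d * pf a z := by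
    linear_combination hx
  calc ∑ j : Fin (k + 1), c j * pf a (fun s => (pf a z)⁻¹ * T (fun s => x (s, j.castSucc)) s)
      = (pf a z)⁻¹ * ∑ j : Fin (k + 1), c j * pf a (fun s => x (s, j.castSucc)) := by
        rw [Finset.mul_sum]
        refine Finset.sum_congr rfl fun j _ => ?_
        rw [e1]; ring
    _ = d := by rw [e2]; field_simp

/-- **Clause (1).** -/
theorem clause1 (h2 : (2 : F) ≠ 0) {u : ℕ}
    (hu : ∀ m : ℕ, u < m → ∀ Q : QuadraticForm F (Fin m → F), ¬ Q.Anisotropic)
    (q : QuadraticForm F (Fin u → F)) (hq : q.Anisotropic)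
    {n k : ℕ} (hk : 0 < k) (a : Fin n → F) (c : Fin k → F) (h : u < 2 ^ n * (k + 1))
    (f : ((Fin n → Bool) × Fin k → F) →ₗ[F] (Fin u → F)) (hf : Function.Injective f)
    (hqf : ∀ x, q (f x) = pfm a c x) : 2 ^ n * k = u := by
  have hA : (pfm a c).Anisotropic := by
    intro x hx
    rw [← hqf] at hx
    exact hf (by rw [hq _ hx, map_zero])
  have := univ_top h2 q hq f hf (fun d hd => by
    obtain ⟨x, hx⟩ := pfm_univ hu hk a c hA h d hd
    exact ⟨x, by rw [hqf, hx]⟩)
  rw [Module.finrank_pi, Module.finrank_pi] at this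
  simpa only [Fintype.card_prod, Fintype.card_fun, Fintype.card_bool, Fintype.card_fin] using this

end Pool.Agent.H21.UI
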