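import Mathlib
import Pool.Agent.H21.UI.Pf

/-!
[H21 UI Quad]  Quadratic extensions and anisotropic forms of odd dimension `u(F)`.
-/

set_option autoImplicit false

namespace Pool.Agent.H21.UI

open QuadraticMap

variable {F : Type*} [Field F]

/-- a quadratic extension is `F(√a)` -/
theorem exists_sqrt [Invertible (2 : F)] {K : Type*} [Field K] [Algebra F K] (hK : Module.finrank F K = 2) :
    ∃ (a : F) (δ : K) (p1 p2 : K →ₗ[F] F), δ * δ = algebraMap F K a ∧
      (∀ z, z = algebraMap F K (p1 z) + algebraMap F K (p2 z) * δ) ∧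
      ∀ s t : F, algebraMap F K s + algebraMap F K t * δ = 0 → s = 0 ∧ t = 0 := by
  have h2 : (2 : F) ≠ 0 := Invertible.ne_zero (2 : F)
  haveI : FiniteDimensional F K := Module.finite_of_finrank_pos (by omega)
  -- an element outside F
  obtain ⟨z, hz⟩ : ∃ z : K, ∀ c : F, algebraMap F K c ≠ z := by
    by_contra hcon
    push Not at hcon
    have h1 : Module.finrank F K ≤ 1 := by
      apply finrank_le_one (1 : K)
      intro w
      obtain ⟨c, hc⟩ := hcon w
      exact ⟨c, by rw [Algebra.smul_def, mul_one]; exact hc⟩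
    omega
  have hli : ∀ s t : F, algebraMap F K s + algebraMap F K t * z = 0 → s = 0 ∧ t = 0 := by
    intro s t h
    have ht : t = 0 := by
      by_contra ht
      apply hz (-s / t)
      have ht' : algebraMap F K t ≠ 0 := by simpa using ht
      rw [map_div₀, map_neg]
      field_simp
      linear_combination -h
    subst ht
    rw [map_zero, zero_mul, add_zero] at h
    exact ⟨by simpa using h, rfl⟩
  have hLI : LinearIndependent F ![(1 : K), z] := by
    rw [LinearIndependent.pair_iff]
    intro s t h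
    apply hli s t
    rw [Algebra.smul_def, Algebra.smul_def, mul_one] at h
    exact h
  let b := basisOfLinearIndependentOfCardEqFinrank hLI (by rw [hK]; simp)
  have hb0 : b 0 = 1 := by simp [b]
  have hb1 : b 1 = z := by simp [b]
  have hrep : ∀ w : K, w = algebraMap F K (b.repr w 0) + algebraMap F K (b.repr w 1) * z := by
    intro w
    conv_lhs => rw [← b.sum_repr w]
    rw [Fin.sum_univ_two, hb0, hb1, Algebra.smul_def, Algebra.smul_def, mul_one]
  obtain ⟨c0, hc0⟩ : ∃ c, c = b.repr (z * z) 0 := ⟨_, rfl⟩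
  obtain ⟨c1, hc1⟩ : ∃ c, c = b.repr (z * z) 1 := ⟨_, rfl⟩
  have hzz : z * z = algebraMap F K c0 + algebraMap F K c1 * z := by rw [hc0, hc1]; exact hrep _
  have h2K : (2 : K) ≠ 0 := by
    have h : algebraMap F K 2 ≠ 0 := (map_ne_zero (algebraMap F K)).2 h2
    rwa [map_ofNat] at h
  refine ⟨c0 + c1 ^ 2 / 4, z - algebraMap F K (c1 / 2), b.coord 0 + (c1 / 2) • b.coord 1, b.coord 1, ?_, ?_, ?_⟩
  · have h4 : (4 : F) ≠ 0 := by
      have : (4 : F) = 2 * 2 := by norm_num
      rw [this]; exact mul_ne_zero h2 h2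
    have h4K : (4 : K) ≠ 0 := by
      have : (4 : K) = 2 * 2 := by norm_num
      rw [this]; exact mul_ne_zero h2K h2K
    simp only [map_add, map_div₀, map_pow, map_ofNat]
    have e : algebraMap F K c1 / 2 + algebraMap F K c1 / 2 = algebraMap F K c1 := by
      field_simp
      ring
    have e2 : algebraMap F K c1 ^ 2 / 4 = (algebraMap F K c1 / 2) ^ 2 := by
      rw [div_pow]; norm_num
    rw [e2]
    linear_combination hzz - z * e
  · intro w
    conv_lhs => rw [hrep w]
    simp only [LinearMap.add_apply, LinearMap.smul_apply, Module.Basis.coord_apply, map_add, smul_eq_mul, map_mul]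
    ring
  · intro s t h
    have h3 := hli (s - t * (c1 / 2)) t (by
      rw [map_sub, map_mul]
      linear_combination h)
    refine ⟨?_, h3.2⟩
    have h4 := h3.1
    rw [h3.2, zero_mul, sub_zero] at h4
    exact h4

/-- the extension of scalars to `K` (same symmetric matrix) -/
noncomputable def ext [Invertible (2 : F)] (K : Type*) [Field K] [Algebra F K] {u : ℕ} (q : QuadraticForm F (Fin u → F)) :
    QuadraticForm K (Fin u → K) :=
  (q.toMatrix'.map (algebraMap F K)).toQuadraticForm'

theorem ext_apply [Invertible (2 : F)] {K : Type*} [Field K] [Algebra F K] {u : ℕ} (q : QuadraticForm F (Fin u → F))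
    (x : Fin u → K) : ext K q x = ∑ i, ∑ j, x i * (x j * algebraMap F K (q.toMatrix' i j)) := by
  unfold ext Matrix.toQuadraticForm'
  rw [LinearMap.BilinMap.toQuadraticMap_apply, Matrix.toLinearMap₂'_apply]
  rfl

theorem assoc_apply [Invertible (2 : F)] {u : ℕ} (q : QuadraticForm F (Fin u → F))
    (x y : Fin u → F) : associated q x y = ∑ i, ∑ j, x i * (y j * q.toMatrix' i j) := by
  have h : Matrix.toLinearMap₂' F q.toMatrix' = associated q := Matrix.toLinearMap₂'_toMatrix' (R := F) _
  rw [← h, Matrix.toLinearMap₂'_apply]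
  rfl

theorem ext_split [Invertible (2 : F)] {K : Type*} [Field K] [Algebra F K] {u : ℕ} (q : QuadraticForm F (Fin u → F))
    (a : F) (δ : K) (hδ : δ * δ = algebraMap F K a) (s t : Fin u → F) (x : Fin u → K)
    (hx : ∀ i, x i = algebraMap F K (s i) + algebraMap F K (t i) * δ) :
    ext K q x = algebraMap F K (q s + a * q t) + algebraMap F K (polar q s t) * δ := by
  have h1 : q s = associated q s s := (associated_eq_self_apply F q s).symm
  have h2 : q t = associated q t t := (associated_eq_self_apply F q t).symm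
  have h3 : polar q s t = associated q s t + associated q t s := by
    have e1 : associated q t s = associated q s t := (QuadraticMap.associated_isSymm F q t s)
    have e2 : polar q s t = 2 • associated q s t := by
      have h : (2 • associated q) s t = polarBilin q s t := by rw [two_nsmul_associated F q]
      exact h.symm
    rw [e1, e2, two_nsmul]
  rw [h1, h2, h3, ext_apply, assoc_apply, assoc_apply, assoc_apply, assoc_apply]
  simp only [map_add, map_mul, map_sum, Finset.mul_sum, Finset.sum_mul, ← Finset.sum_add_distrib]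
  refine Finset.sum_congr rfl fun i _ => Finset.sum_congr rfl fun j _ => ?_
  rw [hx i, hx j]
  linear_combination (algebraMap F K (t i) * algebraMap F K (t j) * algebraMap F K (q.toMatrix' i j)) * hδ

/-- **Clause (2).** -/
theorem clause2 [Invertible (2 : F)] {u : ℕ} (hodd : Odd u)
    (hu : ∀ m : ℕ, u < m → ∀ Q : QuadraticForm F (Fin m → F), ¬ Q.Anisotropic)
    (q : QuadraticForm F (Fin u → F)) (hq : q.Anisotropic)
    {K : Type*} [Field K] [Algebra F K] (hK : Module.finrank F K = 2)
    (W : Submodule K (Fin u → K)) (hW : ∀ w ∈ W, ext K q w = 0) :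
    2 * Module.finrank K W + 3 ≤ u := by
  have h2 : (2 : F) ≠ 0 := Invertible.ne_zero (2 : F)
  haveI : FiniteDimensional F K := Module.finite_of_finrank_pos (by omega)
  obtain ⟨a, δ, p1, p2, hδ, hdec, hli⟩ := exists_sqrt (F := F) hK
  have ha : a ≠ 0 := by
    intro h0
    rw [h0, map_zero] at hδ
    have h1 : δ = 0 := by simpa using hδ
    have := hli 0 1 (by rw [h1]; simp)
    exact one_ne_zero this.2
  -- uniqueness of coordinates
  have huniq : ∀ (z : K) (s t : F), z = algebraMap F K s + algebraMap F K t * δ → p1 z = s ∧ p2 z = t := by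
    intro z s t h
    have h1 := hli (p1 z - s) (p2 z - t) (by
      rw [map_sub, map_sub]
      linear_combination h - hdec z)
    exact ⟨sub_eq_zero.1 h1.1, sub_eq_zero.1 h1.2⟩
  obtain ⟨P1, hP1⟩ : ∃ P : (Fin u → K) →ₗ[F] (Fin u → F), ∀ x i, P x i = p1 (x i) :=
    ⟨LinearMap.pi fun i => p1.comp (LinearMap.proj i), fun x i => rfl⟩
  obtain ⟨P2, hP2⟩ : ∃ P : (Fin u → K) →ₗ[F] (Fin u → F), ∀ x i, P x i = p2 (x i) :=
    ⟨LinearMap.pi fun i => p2.comp (LinearMap.proj i), fun x i => rfl⟩
  have hQ : ∀ w : Fin u → K, ext K q w =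
      algebraMap F K (q (P1 w) + a * q (P2 w)) + algebraMap F K (polar q (P1 w) (P2 w)) * δ := by
    intro w
    exact ext_split q a δ hδ (P1 w) (P2 w) w (fun i => by rw [hP1, hP2]; exact hdec _)
  have hW1 : ∀ w ∈ W, q (P1 w) + a * q (P2 w) = 0 ∧ polar q (P1 w) (P2 w) = 0 := by
    intro w hw'
    have := hW w hw'
    rw [hQ] at this
    exact hli _ _ this
  have hdw : ∀ (z : K) (w : Fin u → K), P1 (z • w) = p1 z • P1 w + (a * p2 z) • P2 w := by
    intro z w
    funext i
    rw [hP1, Pi.smul_apply, smul_eq_mul, Pi.add_apply, Pi.smul_apply, Pi.smul_apply, hP1, hP2, smul_eq_mul, smul_eq_mul]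
    exact (huniq (z * w i) (p1 z * p1 (w i) + a * p2 z * p2 (w i)) (p1 z * p2 (w i) + p2 z * p1 (w i)) (by
      conv_lhs => rw [hdec z, hdec (w i)]
      simp only [map_add, map_mul]
      linear_combination (algebraMap F K (p2 z) * algebraMap F K (p2 (w i))) * hδ)).1
  have hscale : ∀ (z : K), ∀ w ∈ W, q (P1 (z • w)) = (p1 z ^ 2 - a * p2 z ^ 2) * q (P1 w) := by
    intro z w hw'
    obtain ⟨e1, e2⟩ := hW1 w hw'
    rw [hdw, QuadraticMap.map_add q, QuadraticMap.map_smul, QuadraticMap.map_smul, polar_smul_left, polar_smul_right, e2]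
    simp only [smul_eq_mul]
    linear_combination (a * p2 z ^ 2) * e1
  -- the F-linear embedding of W
  obtain ⟨f, hf⟩ : ∃ f : W →ₗ[F] (Fin u → F), ∀ w : W, f w = P1 (w : Fin u → K) :=
    ⟨P1.comp ((W.restrictScalars F).subtype), fun w => rfl⟩
  have hfinj : Function.Injective f := by
    rw [← LinearMap.ker_eq_bot, LinearMap.ker_eq_bot']
    intro w hw0
    rw [hf] at hw0
    obtain ⟨e1, _⟩ := hW1 w w.2
    rw [hw0, QuadraticMap.map_zero, zero_add] at e1
    have e3 : P2 (w : Fin u → K) = 0 := hq _ ((mul_eq_zero.1 e1).resolve_left ha)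
    apply Subtype.ext
    funext i
    rw [hdec ((w : Fin u → K) i), ← hP1, ← hP2, hw0, e3]
    simp
  have hfin : Module.finrank F W = 2 * Module.finrank K W := by
    rw [← hK]; exact (Module.finrank_mul_finrank F K W).symm
  haveI : FiniteDimensional F W := FiniteDimensional.of_injective f hfinj
  have hle : Module.finrank F W ≤ u := by
    have := LinearMap.finrank_le_finrank_of_injective hfinj
    simpa using this
  by_contra hcon
  have heq : Module.finrank F W = u - 1 := by
    obtain ⟨r, hr⟩ := hodd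
    omega
  have hupos : 0 < u := hodd.pos
  -- universality
  have huniv : ∀ d : F, d ≠ 0 → ∃ x : W, q (f x) = d := by
    intro d hd
    obtain ⟨N, hN⟩ : ∃ N : QuadraticForm F (W × K), ∀ x : W × K, N x = q (f x.1) - d * (p1 x.2 ^ 2 - a * p2 x.2 ^ 2) := by
      refine ⟨q.comp (f.comp (LinearMap.fst F W K)) - d • (linMulLin (p1.comp (LinearMap.snd F W K)) (p1.comp (LinearMap.snd F W K))
        - a • linMulLin (p2.comp (LinearMap.snd F W K)) (p2.comp (LinearMap.snd F W K))), fun x => ?_⟩
      simp only [QuadraticMap.sub_apply, QuadraticMap.smul_apply, QuadraticMap.comp_apply, linMulLin_apply, LinearMap.comp_apply,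
        LinearMap.fst_apply, LinearMap.snd_apply, smul_eq_mul]
      ring
    obtain ⟨x, hx0, hx⟩ := iso_of_bound hu (V := W × K) (by
      rw [Module.finrank_prod, hK, heq]; omega) N
    rw [hN] at hx
    have hz : x.2 ≠ 0 := by
      intro h0
      rw [h0, map_zero, map_zero] at hx
      have h1 : q (f x.1) = 0 := by
        have := hx; simpa using this
      have h3 : x.1 = 0 := hfinj (by rw [hq _ h1, map_zero])
      exact hx0 (Prod.ext h3 h0)
    have hNz : p1 x.2 ^ 2 - a * p2 x.2 ^ 2 ≠ 0 := by
      intro h0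
      have h1 : (algebraMap F K (p1 x.2) + algebraMap F K (p2 x.2) * δ) *
          (algebraMap F K (p1 x.2) + algebraMap F K (-p2 x.2) * δ) = 0 := by
        have := congrArg (algebraMap F K) h0
        rw [map_sub, map_mul, map_pow, map_pow, map_zero] at this
        rw [map_neg]
        linear_combination this - (algebraMap F K (p2 x.2)) ^ 2 * hδ
      rcases mul_eq_zero.1 h1 with h | h
      · exact hz (by rw [hdec x.2]; exact h)
      · obtain ⟨g1, g2⟩ := hli _ _ h
        apply hz
        rw [hdec x.2, g1, neg_eq_zero.1 g2]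
        simp
    obtain ⟨n, hn⟩ : ∃ n : F, n = p1 x.2 ^ 2 - a * p2 x.2 ^ 2 := ⟨_, rfl⟩
    rw [← hn] at hNz hx
    -- the conjugate
    obtain ⟨z, hzdef⟩ : ∃ z : K, z = algebraMap F K (p1 x.2 / n) + algebraMap F K (-p2 x.2 / n) * δ := ⟨_, rfl⟩
    obtain ⟨z1, z2⟩ := huniq z _ _ hzdef
    refine ⟨⟨z • (x.1 : Fin u → K), W.smul_mem z x.1.2⟩, ?_⟩
    rw [hf]
    show q (P1 (z • (x.1 : Fin u → K))) = d
    rw [hscale z _ x.1.2, z1, z2, ← hf, sub_eq_zero.1 hx]
    have : (p1 x.2 / n) ^ 2 - a * (-p2 x.2 / n) ^ 2 = (p1 x.2 ^ 2 - a * p2 x.2 ^ 2) / n ^ 2 := by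
      field_simp
    rw [this, ← hn]
    field_simp
  have := univ_top h2 q hq f hfinj huniv
  rw [heq, Module.finrank_pi, Fintype.card_fin] at this
  omega

end Pool.Agent.H21.UI
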